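import Pool.Agent.H146Z.NevTan

set_option autoImplicit false

open Filter Topology Pool.Agent.H146Z.Nev

/-- There are Nevanlinna functions `m j` whose numbers of poles in every nondegenerate real
interval tend to infinity, and an entire function `g`, such that for every bounded open set `U`
meeting the real line the numbers `Z j` of zeros of `m j - g` in `U` and `P j` of poles of `m j` in
`U` are finite and `|Z j - P j|` tends to infinity. -/
theorem Pool.Agent.Results.MP_9bfa98_an.Unbounded.result :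
    ∃ (m : ℕ → ℂ → ℂ) (g : ℂ → ℂ), (∀ j, IsNevanlinna (m j)) ∧ AnalyticOnNhd ℂ g Set.univ ∧
      (∀ a b : ℝ, a < b →
        Tendsto (fun j => poleCount (m j) (Complex.ofReal '' Set.Ioo a b)) atTop (𝓝 ⊤)) ∧
      ∀ U : Set ℂ, IsOpen U → Bornology.IsBounded U → (∃ x : ℝ, (x : ℂ) ∈ U) →
        (∀ j, zeroCount (m j - g) U ≠ ⊤ ∧ poleCount (m j) U ≠ ⊤) ∧
        Tendsto (fun j => |(zeroCount (m j - g) U).toReal - (poleCount (m j) U).toReal|)
          atTop atTop := by
  have hc : ∀ j : ℕ, (0 : ℝ) < (j : ℝ) + 1 := fun j => by positivity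
  refine ⟨fun j => tn ((j : ℝ) + 1), fun _ => Complex.I, fun j => tn_nev (hc j),
    analyticOnNhd_const, fun a b hab => ?_, fun U hU hUb hx => ?_⟩
  · rw [ENNReal.tendsto_nhds_top_iff_nat]
    intro n
    filter_upwards [many_poles hab (n + 1)] with j hj
    rw [poleCount_tn (hc j)]
    have h1 := hj (Complex.ofReal '' Set.Ioo a b) (fun x h1 h2 => ⟨x, ⟨h1, h2⟩, rfl⟩)
    have h2 : (((n + 1 : ℕ) : ℕ∞) : ENNReal) ≤ _ := ENat.toENNReal_le.2 h1
    refine lt_of_lt_of_le ?_ h2
    rw [ENat.toENNReal_coe]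
    exact_mod_cast Nat.lt_succ_self n
  · have hfin : ∀ j : ℕ, poleCount (tn ((j : ℝ) + 1)) U ≠ ⊤ := by
      intro j
      rw [poleCount_tn (hc j), Ne, ENat.toENNReal_eq_top]
      exact (poles_finite (hc j) hUb).encard_lt_top.ne
    refine ⟨fun j => ⟨?_, hfin j⟩, ?_⟩
    · rw [zeroCount_tn (hc j)]
      exact ENNReal.zero_ne_top
    · obtain ⟨x, hx⟩ := hx
      have h1 : Complex.ofReal ⁻¹' U ∈ 𝓝 x :=
        (hU.preimage Complex.continuous_ofReal).mem_nhds hx
      obtain ⟨a, b, ⟨ha, hb⟩, hsub⟩ := mem_nhds_iff_exists_Ioo_subset.1 h1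
      rw [tendsto_atTop]
      intro r
      obtain ⟨n, hn⟩ := exists_nat_ge r
      filter_upwards [many_poles (ha.trans hb) n] with j hj
      have h2 := hj U (fun y h1 h2 => hsub ⟨h1, h2⟩)
      have h3 : (((n : ℕ) : ℕ∞) : ENNReal) ≤ _ := ENat.toENNReal_le.2 h2
      rw [← poleCount_tn (hc j), ENat.toENNReal_coe] at h3
      have h4 := ENNReal.toReal_mono (hfin j) h3
      rw [ENNReal.toReal_natCast] at h4
      rw [zeroCount_tn (hc j), ENNReal.toReal_zero, zero_sub, abs_neg]
      exact hn.trans (h4.trans (le_abs_self _))
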